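import Mathlib
import Pool.Agent.Q98.SG.T
import Pool.Agent.J4H53.VG.Fr

/-!
# Local conditions: decomposition groups whose `d`-th powers are central
-/

set_option autoImplicit false

open NumberField
open scoped Pointwise Nat

namespace Pool.Agent.J4H53.VL

open Pool.Agent.W738.SAL Pool.Agent.Q98.SG Pool.Agent.J4H53.VG

section tame

variable {S : Type*} [CommRing S] [IsDedekindDomain S] {G : Type*} [Group G]
  [MulSemiringAction G S] {P : Ideal S} [hPp : P.IsPrime]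

/-- the case that the `d`-th powers of the elements of the inertia group are central -/
theorem inertia_card_loc [Finite G] [FaithfulSMul G S] (hP0 : P ≠ ⊥) [Finite (S ⧸ P)] {p : ℕ}
    (hp : p.Prime) (hpP : (p : S) ∈ P) {d : ℕ} (hd : 0 < d) (hdp : d < p)
    (hcen : ∀ σ ∈ P.inertia G, ∀ τ : G, σ ^ d * τ = τ * σ ^ d) :
    Nat.card (P.inertia G) ≤ d * Nat.card (Subgroup.center G) := by
  classical
  obtain ⟨π, hπ, hgen, θ, hθ⟩ := tame_char (G := G) (P := P) hP0
  have hmax : P.IsMaximal := hPp.isMaximal hP0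
  let _ : Field (S ⧸ P) := Ideal.Quotient.field P
  -- kernel elements are central
  have hker : ∀ w : P.inertia G, θ w = 1 → (w : G) ∈ Subgroup.center G := by
    intro w hw
    have hw0 : 0 < orderOf (w : G) := orderOf_pos _
    obtain ⟨a, m, hm, hab⟩ := Nat.exists_eq_pow_mul_and_not_dvd hw0.ne' p hp.ne_one
    have h1 : (w : G) ^ (p ^ a) = 1 := by
      have h3 : θ (w ^ (p ^ a)) = 1 := by rw [map_pow, hw, one_pow]
      have h4 := hθ _ h3
      have h5 : (((w ^ (p ^ a) : P.inertia G) : G)) = (w : G) ^ (p ^ a) := by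
        rw [Subgroup.coe_pow]
      rw [h5] at h4
      have h6 : (w : G) ^ (p ^ a) ∈ P.inertia G := Subgroup.pow_mem _ w.2 _
      refine tame_trivial h6 hπ hgen h4 (m := m) ?_ ?_
      · rw [← pow_mul, ← hab]
        exact pow_orderOf_eq_one _
      · intro h7
        have h8 : IsCoprime (p : ℤ) (m : ℤ) :=
          Nat.isCoprime_iff_coprime.2 ((Nat.Prime.coprime_iff_not_dvd hp).2 hm)
        obtain ⟨x, y, hxy⟩ := h8
        apply hPp.ne_top
        rw [Ideal.eq_top_iff_one]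
        have h9 : (1 : S) = (x : S) * (p : S) + (y : S) * (m : S) := by
          have := congrArg (Int.cast : ℤ → S) hxy
          push_cast at this
          exact this.symm
        rw [h9]
        exact P.add_mem (P.mul_mem_left _ hpP) (P.mul_mem_left _ h7)
    have h2 : (w : G) ^ d ∈ Subgroup.center G := by
      rw [Subgroup.mem_center_iff]
      intro g
      exact (hcen _ w.2 g).symm
    have h3 : Nat.Coprime (p ^ a) d := by
      apply Nat.Coprime.pow_left
      rw [Nat.Prime.coprime_iff_not_dvd hp]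
      intro h4
      exact absurd (Nat.le_of_dvd hd h4) (by omega)
    have h4 : IsCoprime ((p ^ a : ℕ) : ℤ) (d : ℤ) := Nat.isCoprime_iff_coprime.2 h3
    obtain ⟨x, y, hxy⟩ := h4
    have h5 : (w : G) = ((w : G) ^ (p ^ a)) ^ x * ((w : G) ^ d) ^ y := by
      rw [← zpow_natCast, ← zpow_natCast, ← zpow_mul, ← zpow_mul, ← zpow_add]
      have : ((p ^ a : ℕ) : ℤ) * x + (d : ℤ) * y = 1 := by rw [← hxy]; ring
      rw [this, zpow_one]
    rw [h5, h1, one_zpow, one_mul]
    exact Subgroup.zpow_mem _ h2 _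
  -- the image is cyclic
  let θ' : P.inertia G →* (S ⧸ P)ˣ := θ.toHomUnits
  have hcyc : IsCyclic θ'.range := inferInstance
  obtain ⟨⟨_, τ, rfl⟩, hgenr⟩ := hcyc.exists_generator
  -- covering
  have hcov : ∀ σ : P.inertia G, ∃ j : Fin d, ∃ z : Subgroup.center G,
      (σ : G) = (τ : G) ^ (j : ℕ) * (z : G) := by
    intro σ
    obtain ⟨k, hk⟩ := hgenr ⟨θ' σ, σ, rfl⟩
    have hk' : θ' τ ^ k = θ' σ := congrArg Subtype.val hk
    set w : P.inertia G := τ ^ (-k) * σ with hw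
    have h1 : θ' w = 1 := by
      rw [hw, map_mul, map_zpow, zpow_neg, hk', inv_mul_cancel]
    have h2 : θ w = 1 := by
      have := congrArg Units.val h1
      simpa [θ'] using this
    have h3 := hker w h2
    have h4 : (σ : G) = (τ : G) ^ k * (w : G) := by
      rw [hw]
      push_cast
      rw [zpow_neg, mul_inv_cancel_left]
    have hd0 : (d : ℤ) ≠ 0 := by exact_mod_cast hd.ne'
    have h5 : 0 ≤ k % d := Int.emod_nonneg _ hd0
    have h6 : k % d < d := Int.emod_lt_of_pos _ (by exact_mod_cast hd)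
    refine ⟨⟨(k % d).toNat, by omega⟩, ⟨((τ : G) ^ d) ^ (k / d) * (w : G), ?_⟩, ?_⟩
    · refine Subgroup.mul_mem _ (Subgroup.zpow_mem _ ?_ _) h3
      rw [Subgroup.mem_center_iff]
      intro g
      exact (hcen _ τ.2 g).symm
    · simp only
      rw [h4, ← mul_assoc]
      congr 1
      rw [← zpow_natCast, ← zpow_natCast, ← zpow_mul, ← zpow_add, Int.toNat_of_nonneg h5,
        Int.emod_add_mul_ediv]
  choose J Z hJZ using hcov
  have hinj : Function.Injective (fun σ : P.inertia G => (J σ, Z σ)) := by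
    intro σ τ' h
    have h1 : J σ = J τ' := congrArg Prod.fst h
    have h2 : Z σ = Z τ' := congrArg Prod.snd h
    apply Subtype.ext
    rw [hJZ σ, hJZ τ', h1, h2]
  have h1 := Nat.card_le_card_of_injective _ hinj
  rwa [Nat.card_prod, Nat.card_fin] at h1

end tame

/-- the `d`-th powers of the elements of the decomposition groups over `p` are central -/
def LC (F L : Type) [Field F] [Field L] [NumberField L] [Algebra F L] (p d : ℕ) : Prop :=
  ∀ Q ∈ primesAbove L p, ∀ σ : L ≃ₐ[F] L, (∀ x ∈ Q, σ • x ∈ Q) →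
    ∀ τ : L ≃ₐ[F] L, σ ^ d * τ = τ * σ ^ d

variable {F L : Type} [Field F] [NumberField F] [Field L] [NumberField L] [Algebra F L]
  [IsGalois F L] {p : ℕ}

/-- the Frobenius elements above one prime of `F` -/
theorem frob_overL (hp : p.Prime) {d f : ℕ} (hf : Module.finrank ℚ F ≤ f)
    (hcen : LC F L p d) {P : Ideal (𝓞 F)} (hP : P ∈ primesAbove F p) :
    ∃ σ : L ≃ₐ[F] L, ∀ Q ∈ primesAbove L p, Q.under (𝓞 F) = P →
      ∀ x : 𝓞 L, x ^ (p ^ (f ! * d)) - σ • x ∈ Q := by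
  classical
  have hP1 := hP.1
  have hP0 : P ≠ ⊥ := ne_bot_of hp hP
  obtain ⟨g, hg0, hgf, hg⟩ := deg_below F hp hP
  have hdvd : g ∣ f ! := Nat.dvd_factorial hg0 (hgf.trans hf)
  obtain ⟨a, ha⟩ := hdvd
  obtain ⟨Q₀⟩ : Nonempty (Ideal.primesOver P (𝓞 L)) := inferInstance
  have hfin : ∀ Q : Ideal.primesOver P (𝓞 L), Finite (𝓞 L ⧸ Q.1) := by
    intro Q
    apply Ideal.finiteQuotientOfFreeOfNeBot
    intro h4
    apply hP0
    have h2 := Q.2.2.over
    rw [h2, h4]
    exact Ideal.comap_bot_of_injective _ (FaithfulSMul.algebraMap_injective (𝓞 F) (𝓞 L))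
  obtain ⟨s, hs1, hs2⟩ := IsArithFrobAt.exists_primesOver_isConj (R := 𝓞 F) (𝓞 L) (L ≃ₐ[F] L)
    P ⟨Q₀, hfin Q₀⟩
  have habove : Q₀.1 ∈ primesAbove L p := by
    refine ⟨Q₀.2.1, ?_⟩
    have h1 : (p : 𝓞 F) ∈ Q₀.1.under (𝓞 F) := by
      rw [← Q₀.2.2.over]; exact hP.2
    rw [Ideal.under_def, Ideal.mem_comap] at h1
    simpa using h1
  have hs0 : ∀ τ : L ≃ₐ[F] L, (s Q₀) ^ d * τ = τ * (s Q₀) ^ d := by
    refine hcen Q₀.1 habove (s Q₀) ?_
    intro x hx
    have h1 := hs1 Q₀ x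
    have h5 : Nat.card (𝓞 F ⧸ Q₀.1.under (𝓞 F)) = p ^ g := by
      rw [← Q₀.2.2.over, hg]
    have h3 : s Q₀ • x - x ^ (p ^ g) ∈ Q₀.1 := by
      rw [← h5]; exact h1
    have h6 : x ^ (p ^ g) ∈ Q₀.1 :=
      Ideal.pow_mem_of_mem _ hx _ (Nat.pow_pos hp.pos)
    have h7 := Q₀.1.add_mem h3 h6
    rwa [sub_add_cancel] at h7
  refine ⟨(s Q₀) ^ (d * a), ?_⟩
  intro J hJ hunder x
  have hJ2 := hJ.1
  set t := s ⟨J, hJ2, ⟨hunder.symm⟩⟩ with ht
  have hx : ∀ x : 𝓞 L, x ^ (p ^ g) - t • x ∈ J := by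
    intro x
    have h1 := hs1 ⟨J, hJ2, ⟨hunder.symm⟩⟩ x
    have h3 : t • x - x ^ (p ^ g) ∈ J := by
      have h5 : Nat.card (𝓞 F ⧸ J.under (𝓞 F)) = p ^ g := by rw [hunder, hg]
      rw [← h5]; exact h1
    rw [← neg_sub]
    exact J.neg_mem h3
  have hpow : t ^ (d * a) = (s Q₀) ^ (d * a) := by
    obtain ⟨c, hc⟩ := isConj_iff.1 (hs2 ⟨J, hJ2, ⟨hunder.symm⟩⟩ Q₀)
    have hc' : c⁻¹ * s Q₀ * c = t := by
      rw [← hc, ← ht]; group
    have h1 : t ^ d = (s Q₀) ^ d := by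
      have h2 : t ^ d = c⁻¹ * (s Q₀) ^ d * c := by
        rw [← hc']
        have := conj_pow (i := d) (a := c⁻¹) (b := s Q₀)
        rwa [inv_inv] at this
      rw [h2, mul_assoc, hs0, inv_mul_cancel_left]
    rw [pow_mul, pow_mul, h1]
  have h1 := iter hx (d * a) x
  rw [hpow] at h1
  have h2 : (p ^ g) ^ (d * a) = p ^ (f ! * d) := by
    rw [← pow_mul, ha]
    congr 1
    ring
  rwa [h2] at h1

/-- the Frobenius elements above a rational prime: at most `f` automorphisms, one exponent -/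
theorem frobsL (hp : p.Prime) {d f : ℕ} (hf : Module.finrank ℚ F ≤ f)
    (hcen : LC F L p d) :
    ∃ S : Finset (L ≃ₐ[F] L), S.card ≤ f ∧ ∀ Q ∈ primesAbove L p, ∃ σ ∈ S,
      ∀ x : 𝓞 L, x ^ (p ^ (f ! * d)) - σ • x ∈ Q := by
  classical
  have h := fun P (hP : P ∈ primesAbove F p) => frob_overL (L := L) hp hf hcen hP
  choose! σ hσ using h
  have hfin := primesAbove_finite F hp
  refine ⟨hfin.toFinset.image σ, ?_, ?_⟩
  · refine Finset.card_image_le.trans ?_
    rw [← Set.ncard_eq_toFinset_card _ hfin]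
    exact (card_above F hp).trans hf
  · intro Q hQ
    have hu := under_above (F := F) hQ
    exact ⟨σ (Q.under (𝓞 F)), Finset.mem_image_of_mem _ (hfin.mem_toFinset.2 hu),
      hσ _ hu Q hQ rfl⟩

/-- the inertia groups -/
theorem inertiaL (hp : p.Prime) {d : ℕ} (hd : 0 < d) (hdp : d < p) (hcen : LC F L p d)
    {Q : Ideal (𝓞 L)} (hQ : Q ∈ primesAbove L p) :
    Nat.card (Q.inertia (L ≃ₐ[F] L)) ≤ d * Nat.card (Subgroup.center (L ≃ₐ[F] L)) := by
  have hQ1 := hQ.1
  have hQ0 : Q ≠ ⊥ := ne_bot_of hp hQ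
  have : Finite (𝓞 L ⧸ Q) := Ideal.finiteQuotientOfFreeOfNeBot Q hQ0
  have hfa : FaithfulSMul (L ≃ₐ[F] L) (𝓞 L) :=
    (inferInstance : IsGaloisGroup (L ≃ₐ[F] L) (𝓞 F) (𝓞 L)).faithful
  exact inertia_card_loc (G := L ≃ₐ[F] L) hQ0 hp hQ.2 hd hdp
    (fun σ hσ => hcen Q hQ σ (fun x hx => smul_mem hσ hx))

end Pool.Agent.J4H53.VL
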