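import Mathlib
import Pool.Agent.J4H53.VL.A

/-!
# The local condition passes to normal subextensions
-/

set_option autoImplicit false

open NumberField
open scoped Pointwise Nat

namespace Pool.Agent.J4H53.VL

open Pool.Agent.W738.SAL Pool.Agent.Q98.SG Pool.Agent.J4H53.VG

/-- stability under the inverse -/
theorem stable_inv {S : Type*} [CommRing S] {G : Type*} [Group G] [Finite G]
    [MulSemiringAction G S] {Q : Ideal S} {ψ : G} (h : ∀ x ∈ Q, ψ • x ∈ Q) :
    ∀ x ∈ Q, ψ⁻¹ • x ∈ Q := by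
  have h1 : ∀ (k : ℕ) (x : S), x ∈ Q → ψ ^ k • x ∈ Q := by
    intro k
    induction k with
    | zero => intro x hx; simpa using hx
    | succ k ih =>
      intro x hx
      rw [pow_succ', mul_smul]
      exact h _ (ih x hx)
  intro x hx
  have h2 : ψ⁻¹ = ψ ^ (orderOf ψ - 1) := by
    have h0 : 0 < orderOf ψ := orderOf_pos ψ
    rw [inv_eq_iff_mul_eq_one, ← pow_succ', Nat.sub_add_cancel h0, pow_orderOf_eq_one]
  rw [h2]
  exact h1 _ x hx

theorem LC.quot {F L : Type} [Field F] [NumberField F] [Field L] [NumberField L] [Algebra F L]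
    [IsGalois F L] {p d : ℕ} (hp : p.Prime) (h : LC F L p d) (K : IntermediateField F L)
    [NumberField K] [Normal F K] : LC F K p d := by
  classical
  intro Q₁ hQ₁ σ₁ hσ₁ τ₁
  have hQ₁p := hQ₁.1
  have hQ₁0 : Q₁ ≠ ⊥ := ne_bot_of hp hQ₁
  obtain ⟨g, hg⟩ := AlgEquiv.restrictNormalHom_surjective (F := F) (K₁ := K) L σ₁
  obtain ⟨τ, hτ⟩ := AlgEquiv.restrictNormalHom_surjective (F := F) (K₁ := K) L τ₁
  have hgv : ∀ y : K, g (y : L) = (σ₁ y : L) := by
    intro y
    rw [← hg]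
    exact (AlgEquiv.restrictNormalHom_apply K g y).symm
  obtain ⟨⟨Q, hQp, hQo⟩⟩ : Nonempty (Ideal.primesOver Q₁ (𝓞 L)) := inferInstance
  have hQ : Q ∈ primesAbove L p := by
    refine ⟨hQp, ?_⟩
    have h1 : (p : 𝓞 K) ∈ Q.under (𝓞 K) := by
      rw [← hQo.over]; exact hQ₁.2
    rw [Ideal.under_def, Ideal.mem_comap] at h1
    simpa using h1
  have hmem : ∀ y : 𝓞 K, algebraMap (𝓞 K) (𝓞 L) y ∈ Q ↔ y ∈ Q₁ := by
    intro y
    have h1 : Q₁ = Q.under (𝓞 K) := hQo.over
    rw [h1, Ideal.under_def, Ideal.mem_comap]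
  have hσinv := stable_inv hσ₁
  have hginv : ∀ y : 𝓞 K, g⁻¹ • algebraMap (𝓞 K) (𝓞 L) y = algebraMap (𝓞 K) (𝓞 L) (σ₁⁻¹ • y) := by
    intro y
    rw [inv_smul_eq_iff]
    apply RingOfIntegers.ext
    change ((y : K) : L) = g (((σ₁⁻¹ • y : 𝓞 K) : K) : L)
    rw [hgv]
    change ((y : K) : L) = ((σ₁ (σ₁⁻¹ (y : K)) : K) : L)
    rw [← AlgEquiv.mul_apply, mul_inv_cancel, AlgEquiv.one_apply]
  have hgQp : (g • Q).IsPrime := inferInstance
  have hgo : (g • Q).LiesOver Q₁ := by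
    constructor
    ext y
    rw [Ideal.under_def, Ideal.mem_comap, Ideal.mem_pointwise_smul_iff_inv_smul_mem, hginv, hmem]
    constructor
    · intro hy; exact hσinv y hy
    · intro hy
      have h1 := hσ₁ _ hy
      rwa [smul_inv_smul] at h1
  have hgal : IsGalois K L := IsGalois.tower_top_intermediateField K
  obtain ⟨c, hc⟩ := Ideal.exists_smul_eq_of_isGaloisGroup Q₁ (g • Q) Q (L ≃ₐ[K] L)
  set w : L ≃ₐ[F] L := (c.restrictScalars F) * g with hw
  have hwQ : ∀ x ∈ Q, w • x ∈ Q := by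
    intro x hx
    have h1 : c • (g • x) ∈ c • (g • Q) :=
      Ideal.smul_mem_pointwise_smul _ _ _ (Ideal.smul_mem_pointwise_smul _ _ _ hx)
    rw [hc] at h1
    have h2 : w • x = c • (g • x) := rfl
    rw [h2]
    exact h1
  have hwσ : AlgEquiv.restrictNormalHom K w = σ₁ := by
    ext y
    have h1 : ((AlgEquiv.restrictNormalHom K w y : K) : L) = w (y : L) :=
      AlgEquiv.restrictNormalHom_apply K w y
    rw [h1]
    change c (g (y : L)) = _
    rw [hgv]
    exact c.commutes (σ₁ y)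
  have h2 := congrArg (AlgEquiv.restrictNormalHom K) (h Q hQ w hwQ τ)
  rw [map_mul, map_mul, map_pow, hwσ, hτ] at h2
  exact h2

end Pool.Agent.J4H53.VL
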