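import Mathlib
import Pool.Agent.J4H53.VL.B
import Pool.Agent.J4H53.VH.S

/-!
# Large inertia groups under the local condition
-/

set_option autoImplicit false

open Polynomial NumberField
open scoped Pointwise Nat

namespace Pool.Agent.J4H53.VL

open Pool.Agent.W738.SAL Pool.Agent.Q98.SG Pool.Agent.J4H53.VG Pool.Agent.J4H53.VH

theorem inert_locN {β : ℝ} (hP : IsPerron β) (hrec : IsReciprocal β)
    (hinf : ¬ (ParryPowers β).Finite) {F L M : Type} (N : Type) [Field F] [NumberField F] [Field L]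
    [NumberField L] [Field M] [NumberField M] [Field N] [NumberField N] [Algebra F L] [Algebra L M]
    [Algebra M N] [Algebra L N] [Algebra F N] [IsScalarTower F L N] [IsScalarTower L M N]
    [IsGalois F L] [IsGalois F N] (ι : TF β →ₐ[ℚ] M)
    {p d f D A : ℕ} (hp : p.Prime) (hd : 0 < d) (hf0 : 0 < f)
    (hf : Module.finrank ℚ F ≤ f) (hD : Module.finrank L M ≤ D) (hpf : 16 ^ (f * D) ≤ p)
    (hcen : LC F L p d)
    (hA : β ^ (2 * p ^ (f ! * d + 1)) ≤ 4 ^ A) :
    ∃ Q ∈ primesAbove L p,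
      Module.finrank ℚ (TF β) ≤ A * (D * f) * Nat.card (Q.inertia (L ≃ₐ[F] L)) := by
  classical
  have hFD : FiniteDimensional L M := FiniteDimensional.right ℚ L M
  have hD0 : 0 < D := Module.finrank_pos.trans_le hD
  obtain ⟨S, hSc, hS⟩ := frobsL (F := F) (L := L) hp hf hcen
  obtain ⟨Q, hQ, hmax⟩ := exists_max (L := L) hp
  set e := Q.ramificationIdx ℤ with he
  have he0 : 0 < e := (term_le L hp hQ).1
  set e' := e * D with he'
  have he0' : 0 < e' := Nat.mul_pos he0 hD0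
  obtain ⟨k, hk1, hk2⟩ : ∃ k : ℕ, e' ≤ p ^ k ∧ p ^ k ≤ p * e' := by
    refine ⟨Nat.clog p e', Nat.le_pow_clog hp.one_lt _, ?_⟩
    rcases Nat.lt_or_ge 1 e' with h | h
    · have h1 := Nat.pow_pred_clog_lt_self hp.one_lt h
      have h2 : 0 < Nat.clog p e' := Nat.clog_pos hp.one_lt h
      have h3 : Nat.clog p e' = (Nat.clog p e').pred + 1 := by
        rw [Nat.pred_eq_sub_one]; omega
      rw [h3, pow_succ, mul_comm]
      exact Nat.mul_le_mul_left _ h1.le
    · have h1 : e' = 1 := by omega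
      rw [h1, Nat.clog_one_right, pow_zero, mul_one]
      exact hp.pos
  have hram : (Ideal.span {(p : 𝓞 M)}).radical ^ (p ^ k) ≤ Ideal.span {(p : 𝓞 M)} :=
    ramLe_of hp (fun P hP1 hpP => by
      have h1 := ram_ext (L := L) hp (q := P) ⟨hP1, hpP⟩
      have h2 := hmax _ (under_above (F := L) (Q := P) ⟨hP1, hpP⟩)
      exact h1.trans ((Nat.mul_le_mul h2 hD).trans hk1))
  set m := f ! * d with hm
  have hm0 : 0 < m := Nat.mul_pos (Nat.factorial_pos f) hd
  obtain ⟨J, τ, hJ, hprod⟩ := PiM_eq (N := N) ι hP hrec S (p ^ m)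
  have hmem : (PiM ι hP hrec S (p ^ m)) ^ (p ^ k) ∈ Ideal.span {(p : 𝓞 M)} := by
    apply hram
    apply Ideal.pow_mem_pow
    rw [Ideal.radical_eq_sInf, Ideal.mem_sInf]
    rintro I ⟨hI1, hI2⟩
    have hIp : (p : 𝓞 M) ∈ I := hI1 (Ideal.subset_span rfl)
    obtain ⟨σ, hσS, hσ⟩ := hS (I.under (𝓞 L)) (under_above (F := L) (Q := I) ⟨hI2, hIp⟩)
    rw [PiM, ← Finset.mul_prod_erase _ _ hσS]
    apply I.mul_mem_right
    exact twisted_mem hp hIp (fun z => hσ z) _ (minpoly.aeval _ _)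
  have hcrit := prodCritI hP hrec hinf (ext N ι) hp (i := m + k) (j := k) (S ×ˢ J) τ (by omega)
    (by
      rw [Nat.add_sub_cancel, hprod, ← map_pow]
      obtain ⟨w, hw⟩ := Ideal.mem_span_singleton.1 hmem
      rw [hw, map_mul, map_natCast]
      exact Ideal.mul_mem_right _ _ (Ideal.subset_span rfl))
  have hcard : (S ×ˢ J).card ≤ f * D := by
    rw [Finset.card_product]
    exact Nat.mul_le_mul hSc (hJ.trans hD)
  have h9 := size_le hP.1 hp (Nat.mul_pos hf0 hD0) hcard hpf hk2 hA hcrit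
  refine ⟨Q, hQ, h9.trans ?_⟩
  have h10 := ram_rel (F := F) hp hQ
  have h11 : e ≤ f * Nat.card (Q.inertia (L ≃ₐ[F] L)) := h10.trans (Nat.mul_le_mul_right _ hf)
  calc A * e' = A * (D * e) := by rw [he', mul_comm e D]
    _ ≤ A * (D * (f * Nat.card (Q.inertia (L ≃ₐ[F] L)))) :=
        Nat.mul_le_mul_left _ (Nat.mul_le_mul_left _ h11)
    _ = _ := by ring

theorem inert_locM {β : ℝ} (hP : IsPerron β) (hrec : IsReciprocal β)
    (hinf : ¬ (ParryPowers β).Finite) {F L M : Type} [Field F] [NumberField F] [Field L]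
    [NumberField L] [Field M] [NumberField M] [Algebra F L] [Algebra L M]
    [IsGalois F L] (ι : TF β →ₐ[ℚ] M)
    {p d f D A : ℕ} (hp : p.Prime) (hd : 0 < d) (hf0 : 0 < f)
    (hf : Module.finrank ℚ F ≤ f) (hD : Module.finrank L M ≤ D) (hpf : 16 ^ (f * D) ≤ p)
    (hcen : LC F L p d)
    (hA : β ^ (2 * p ^ (f ! * d + 1)) ≤ 4 ^ A) :
    ∃ Q ∈ primesAbove L p,
      Module.finrank ℚ (TF β) ≤ A * (D * f) * Nat.card (Q.inertia (L ≃ₐ[F] L)) := by
  let e : M →ₐ[ℚ] ℂ := IsAlgClosed.lift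
  let _ : Algebra M ℂ := e.toRingHom.toAlgebra
  let N := IntermediateField.normalClosure ℚ M ℂ
  have hfd : FiniteDimensional ℚ N := inferInstance
  have hN : NumberField N := ⟨⟩
  have hnorm : Normal ℚ N := (Algebra.IsAlgebraic.isNormalClosure_normalClosure (F := ℚ) (K := M)
    (L := ℂ) (fun x => IsAlgClosed.splits _)).normal
  have hgal : IsGalois ℚ N := ⟨⟩
  let _ : Algebra M N := inferInstance
  let _ : Algebra L N := ((algebraMap M N).comp (algebraMap L M)).toAlgebra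
  let _ : Algebra F N := ((algebraMap L N).comp (algebraMap F L)).toAlgebra
  have h1 : IsScalarTower F L N := IsScalarTower.of_algebraMap_eq' rfl
  have h2 : IsScalarTower L M N := IsScalarTower.of_algebraMap_eq' rfl
  have h3 : IsGalois F N := IsGalois.tower_top_of_isGalois ℚ F N
  exact inert_locN hP hrec hinf N ι hp hd hf0 hf hD hpf hcen hA

theorem inert_locP {β : ℝ} (hP : IsPerron β) (hrec : IsReciprocal β)
    (hinf : ¬ (ParryPowers β).Finite) {F L : Type} [Field F] [NumberField F] [Field L]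
    [NumberField L] [Algebra F L] [IsGalois F L] {D : ℕ} {P : L[X]} (hFac : Fac β L D P)
    {p d f A : ℕ} (hp : p.Prime) (hd : 0 < d) (hf0 : 0 < f)
    (hf : Module.finrank ℚ F ≤ f) (hpf : 16 ^ (f * D) ≤ p)
    (hcen : LC F L p d)
    (hA : β ^ (2 * p ^ (f ! * d + 1)) ≤ 4 ^ A) :
    ∃ Q ∈ primesAbove L p,
      Module.finrank ℚ (TF β) ≤ A * (D * f) * Nat.card (Q.inertia (L ≃ₐ[F] L)) := by
  obtain ⟨hmon, hirr, hdeg, hdvd⟩ := hFac
  have : Fact (Irreducible P) := ⟨hirr⟩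
  have hne : P ≠ 0 := hirr.ne_zero
  have hfinL : FiniteDimensional L (AdjoinRoot P) := (AdjoinRoot.powerBasis hne).finite
  have hch : CharZero (AdjoinRoot P) :=
    charZero_of_injective_algebraMap (algebraMap L (AdjoinRoot P)).injective
  have hfinQ : FiniteDimensional ℚ (AdjoinRoot P) := FiniteDimensional.trans ℚ L (AdjoinRoot P)
  have hnf : NumberField (AdjoinRoot P) := ⟨⟩
  have hD : Module.finrank L (AdjoinRoot P) ≤ D := by
    rw [(AdjoinRoot.powerBasis hne).finrank, AdjoinRoot.powerBasis_dim]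
    exact hdeg
  have hint : IsIntegral ℚ (β + β⁻¹) := by
    have hrecint : IsIntegral ℤ β⁻¹ := ⟨minpoly ℤ β, minpoly.monic hP.2.1, by
      rw [← aeval_def]; exact hrec⟩
    exact (hP.2.1.add hrecint).tower_top
  have hmin : minpoly ℚ (tt β) = minpoly ℚ (β + β⁻¹) :=
    (minpoly.algebraMap_eq (algebraMap (TF β) ℝ).injective (tt β)).symm
  have hroot : aeval (AdjoinRoot.root P) (minpoly ℚ (β + β⁻¹)) = 0 := by
    rw [← hmin]
    obtain ⟨R, hR⟩ := hdvd
    have h1 : aeval (AdjoinRoot.root P) ((minpoly ℚ (tt β)).map (algebraMap ℚ L)) = 0 := by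
      rw [hR, map_mul, AdjoinRoot.aeval_eq, AdjoinRoot.mk_self, zero_mul]
    rwa [aeval_map_algebraMap] at h1
  let ι : TF β →ₐ[ℚ] AdjoinRoot P := (IntermediateField.algHomAdjoinIntegralEquiv ℚ hint).symm
    ⟨AdjoinRoot.root P, by rw [mem_aroots]; exact ⟨minpoly.ne_zero hint, hroot⟩⟩
  exact inert_locM hP hrec hinf ι hp hd hf0 hf hD hpf hcen hA

end Pool.Agent.J4H53.VL
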