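import Mathlib
import Pool.Agent.J4H53.VL.C

/-!
# The theorem under the local condition
-/

set_option autoImplicit false

open Polynomial NumberField
open scoped Pointwise Nat

namespace Pool.Agent.J4H53.VL

open Pool.Agent.W738.SAL Pool.Agent.Q98.SG Pool.Agent.J4H53.VG Pool.Agent.J4H53.VH

/-- the case that the conjugates of the factor generate the extension -/
theorem thmCenLoc (B : ℝ) (d f D p : ℕ) (hd : 0 < d) (hp : p.Prime) (hdp : d < p)
    (hpf : 16 ^ (f * D) ≤ p) : ∃ N : ℕ, ∀ β : ℝ, IsPerron β →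
    IsReciprocal β → β ≤ B → ∀ (F L : Type) [Field F] [NumberField F] [Field L] [NumberField L]
      [Algebra F L] [IsGalois F L] (P : L[X]), Fac β L D P →
      Module.finrank ℚ F ≤ f → LC F L p d →
      (∀ z : L ≃ₐ[F] L, (∀ g : L ≃ₐ[F] L, z • (g • P) = g • P) → z = 1) →
      N ≤ Module.finrank ℚ (TF β) → (ParryPowers β).Finite := by
  obtain ⟨A, hA⟩ := exists_A B (2 * p ^ (f ! * d + 1))
  obtain ⟨N, hN⟩ := thmAbP B (f * (A * (D * f) * d)) D
  refine ⟨N, ?_⟩
  intro β hP hrec hβ F L _ _ _ _ _ _ P hFac hf hcen hgen hn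
  by_contra hinf
  have hfd : FiniteDimensional ℚ (TF β) := tf_finite hP hrec
  have h0 : 0 < β := lt_trans one_pos hP.1
  have hF0 : 0 < Module.finrank ℚ F := Module.finrank_pos
  have hf0 : 0 < f := hF0.trans_le hf
  obtain ⟨Q, hQ, h1⟩ := inert_locP hP hrec hinf hFac hp hd hf0 hf hpf hcen (hA β h0 hβ)
  have h2 : Nat.card (Q.inertia (L ≃ₐ[F] L)) ≤
      d * Nat.card (Subgroup.center (L ≃ₐ[F] L)) :=
    inertiaL hp hd hdp hcen hQ
  have h3 : Module.finrank ℚ (TF β) ≤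
      (A * (D * f) * d) * Nat.card (Subgroup.center (L ≃ₐ[F] L)) := by
    calc Module.finrank ℚ (TF β) ≤ A * (D * f) * Nat.card (Q.inertia (L ≃ₐ[F] L)) := h1
      _ ≤ A * (D * f) * (d * Nat.card (Subgroup.center (L ≃ₐ[F] L))) := Nat.mul_le_mul_left _ h2
      _ = _ := by ring
  obtain ⟨E, K, _, _, _, _, _, _, R, hFacR, h4, h5, h6⟩ := descendP hP hrec hFac hgen hf h3
  exact hinf (hN β hP hrec hβ E K R hFacR h4 h5 h6 hn)

/-- the general case -/
theorem thmLoc (B : ℝ) (d f D p : ℕ) (hd : 0 < d) (hp : p.Prime) (hdp : d < p)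
    (hpf : 16 ^ (f * D) ≤ p) : ∃ N : ℕ, ∀ β : ℝ, IsPerron β →
    IsReciprocal β → β ≤ B → ∀ (F L : Type) [Field F] [NumberField F] [Field L] [NumberField L]
      [Algebra F L] [IsGalois F L] (P : L[X]), Fac β L D P →
      Module.finrank ℚ F ≤ f → LC F L p d →
      N ≤ Module.finrank ℚ (TF β) → (ParryPowers β).Finite := by
  classical
  obtain ⟨N, hN⟩ := thmCenLoc B d f D p hd hp hdp hpf
  refine ⟨N, ?_⟩
  intro β hP hrec hβ F L _ _ _ _ _ _ P hFac hf hcen hn
  set C := (MulAction.toPermHom (L ≃ₐ[F] L) (MulAction.orbit (L ≃ₐ[F] L) P)).ker with hC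
  have hCmem : ∀ z : L ≃ₐ[F] L, z ∈ C ↔ ∀ g : L ≃ₐ[F] L, z • (g • P) = g • P := by
    intro z
    rw [hC, MonoidHom.mem_ker]
    constructor
    · intro h g
      have h1 := congrArg (fun s : Equiv.Perm (MulAction.orbit (L ≃ₐ[F] L) P) =>
        ((s ⟨g • P, ⟨g, rfl⟩⟩ : MulAction.orbit (L ≃ₐ[F] L) P) : L[X])) h
      exact h1
    · intro h
      apply Equiv.ext
      rintro ⟨y, g, rfl⟩
      exact Subtype.ext (h g)
  have hCn : C.Normal := MonoidHom.normal_ker _
  set K := IntermediateField.fixedField C with hK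
  have hnK : NumberField K := NumberField.of_intermediateField K
  obtain ⟨R, hR, hFacR⟩ := hFac.descend (K := K) (by
    intro i
    have h1 : P.coeff i ∈ K := by
      rw [hK, IntermediateField.mem_fixedField_iff]
      intro s hs
      have h3 := (hCmem s).1 hs 1
      rw [one_smul] at h3
      have h2 := congrArg (fun Q : L[X] => Q.coeff i) h3
      simp only [coeff_smul] at h2
      exact h2
    exact ⟨⟨_, h1⟩, rfl⟩)
  have hval : ∀ (g : L ≃ₐ[F] L) (y : K),
      (((IsGalois.normalAutEquivQuotient C) (g : (L ≃ₐ[F] L) ⧸ C) y : K) : L) = g (y : L) := by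
    intro g y
    rw [IsGalois.normalAutEquivQuotient_apply]
    exact AlgEquiv.restrictNormalHom_apply K g y
  have hvalP : ∀ (g : L ≃ₐ[F] L) (Q : K[X]),
      ((IsGalois.normalAutEquivQuotient C) (g : (L ≃ₐ[F] L) ⧸ C) • Q).map (algebraMap K L) =
        g • (Q.map (algebraMap K L)) := by
    intro g Q
    ext i
    rw [coeff_map, coeff_smul, coeff_smul, coeff_map]
    exact hval g _
  refine hN β hP hrec hβ F K R hFacR hf (LC.quot hp hcen K) ?_ hn
  · intro z hz
    obtain ⟨a, rfl⟩ := (IsGalois.normalAutEquivQuotient C).surjective z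
    obtain ⟨z, rfl⟩ := QuotientGroup.mk_surjective a
    have h1 : z ∈ C := by
      rw [hCmem]
      intro g
      have h2 := congrArg (fun Q : K[X] => Q.map (algebraMap K L))
        (hz ((IsGalois.normalAutEquivQuotient C) g))
      simp only [hvalP, hR] at h2
      exact h2
    rw [(QuotientGroup.eq_one_iff z).2 h1, map_one]

/-- all primes up to `X` -/
theorem thmLocX (B : ℝ) (d f D X : ℕ) (hd : 0 < d) : ∃ N : ℕ, ∀ p : ℕ, p.Prime → d < p →
    16 ^ (f * D) ≤ p → p ≤ X → ∀ β : ℝ, IsPerron β →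
    IsReciprocal β → β ≤ B → ∀ (F L : Type) [Field F] [NumberField F] [Field L] [NumberField L]
      [Algebra F L] [IsGalois F L] (P : L[X]), Fac β L D P →
      Module.finrank ℚ F ≤ f → LC F L p d →
      N ≤ Module.finrank ℚ (TF β) → (ParryPowers β).Finite := by
  classical
  have h : ∀ p : ℕ, ∃ N : ℕ, p.Prime → d < p → 16 ^ (f * D) ≤ p → ∀ β : ℝ, IsPerron β →
    IsReciprocal β → β ≤ B → ∀ (F L : Type) [Field F] [NumberField F] [Field L] [NumberField L]
      [Algebra F L] [IsGalois F L] (P : L[X]), Fac β L D P →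
      Module.finrank ℚ F ≤ f → LC F L p d →
      N ≤ Module.finrank ℚ (TF β) → (ParryPowers β).Finite := by
    intro p
    by_cases h : p.Prime ∧ d < p ∧ 16 ^ (f * D) ≤ p
    · obtain ⟨N, hN⟩ := thmLoc B d f D p hd h.1 h.2.1 h.2.2
      exact ⟨N, fun _ _ _ => hN⟩
    · exact ⟨0, fun h1 h2 h3 => absurd ⟨h1, h2, h3⟩ h⟩
  choose N hN using h
  refine ⟨(Finset.range (X + 1)).sup N, ?_⟩
  intro p hp hdp hpf hpX β hP hrec hβ F L _ _ _ _ _ _ P hFac hf hcen hn
  exact hN p hp hdp hpf β hP hrec hβ F L P hFac hf hcen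
    ((Finset.le_sup (f := N) (Finset.mem_range.2 (by omega))).trans hn)

/-- finitely many exceptions -/
theorem finalLoc (B : ℝ) (d f D X : ℕ) (hd : 0 < d) :
    {β : ℝ | IsPerron β ∧ IsReciprocal β ∧ β ≤ B ∧ ¬ (ParryPowers β).Finite ∧
      ∃ (F L : Type) (_ : Field F) (_ : NumberField F) (_ : Field L) (_ : NumberField L)
        (_ : Algebra F L) (_ : IsGalois F L) (p : ℕ), Module.finrank ℚ F ≤ f ∧
        p.Prime ∧ d < p ∧ 16 ^ (f * D) ≤ p ∧ p ≤ X ∧ LC F L p d ∧
        ∃ P : L[X], 0 < P.natDegree ∧ P.natDegree ≤ D ∧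
          P ∣ (minpoly ℚ (β + β⁻¹)).map (algebraMap ℚ L)}.Finite := by
  obtain ⟨N, hN⟩ := thmLocX B d f D X hd
  refine (perron_finite B (2 * N)).subset ?_
  rintro β ⟨hP, hrec, hβ, hinf, F, L, _, _, _, _, _, _, p, hf, hp, hdp, hpf, hpX, hcen, P, h0, hD,
    hdvd⟩
  refine ⟨hP, hβ, (deg_le hP hrec).trans (Nat.mul_le_mul_left 2 ?_)⟩
  by_contra hcon
  push Not at hcon
  have hfd : FiniteDimensional ℚ (TF β) := tf_finite hP hrec
  have hmin : minpoly ℚ (tt β) = minpoly ℚ (β + β⁻¹) :=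
    (minpoly.algebraMap_eq (algebraMap (TF β) ℝ).injective (tt β)).symm
  rw [← hmin] at hdvd
  obtain ⟨Q, hQ⟩ := exists_fac (β := β) h0 hD hdvd
  exact hinf (hN p hp hdp hpf hpX β hP hrec hβ F L Q hQ hf hcen hcon.le)

end Pool.Agent.J4H53.VL
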